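import Mathlib

/-! Project LD6, block P2: break points, and children with a break point. -/

set_option autoImplicit false

namespace Pool.Agent.Helper85.LD6

open Set

/-- the points where `⌊N₀ U⌋` jumps -/
theorem brk {U : ℝ → ℝ} {a b : ℝ} (hab : a ≤ b) (hU : ContinuousOn U (Icc a b)) (hU2 : MonotoneOn U (Icc a b)) (N₀ : ℕ) :
    ∃ S : Finset ℝ, (S.card : ℝ) ≤ N₀ * (U b - U a) + 1 ∧
      ∀ x ∈ Icc a b, ∀ y ∈ Icc a b, x ≤ y → (∀ z ∈ S, z ∉ Ioc x y) → ⌊(N₀ : ℝ) * U x⌋ = ⌊(N₀ : ℝ) * U y⌋ := by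
  classical
  have hN : (0 : ℝ) ≤ N₀ := Nat.cast_nonneg _
  have hmem_a : a ∈ Icc a b := ⟨le_rfl, hab⟩
  have hmem_b : b ∈ Icc a b := ⟨hab, le_rfl⟩
  have hmono : ∀ x ∈ Icc a b, ∀ y ∈ Icc a b, x ≤ y → (N₀ : ℝ) * U x ≤ N₀ * U y := fun x hx y hy h =>
    mul_le_mul_of_nonneg_left (hU2 hx hy h) hN
  -- the first time
  have hex : ∀ k : ℤ, (k : ℝ) ≤ N₀ * U b → ∃ z, IsLeast (Icc a b ∩ (fun x => (N₀ : ℝ) * U x) ⁻¹' Ici (k : ℝ)) z := by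
    intro k hk
    have hc : IsClosed (Icc a b ∩ (fun x => (N₀ : ℝ) * U x) ⁻¹' Ici (k : ℝ)) :=
      (continuousOn_const.mul hU).preimage_isClosed_of_isClosed isClosed_Icc isClosed_Ici
    exact (isCompact_Icc.of_isClosed_subset hc inter_subset_left).exists_isLeast ⟨b, hmem_b, hk⟩
  choose! z hz using hex
  refine ⟨(Finset.Ioc ⌊(N₀ : ℝ) * U a⌋ ⌊(N₀ : ℝ) * U b⌋).image z, ?_, ?_⟩
  · have h1 : ((Finset.Ioc ⌊(N₀ : ℝ) * U a⌋ ⌊(N₀ : ℝ) * U b⌋).image z).card ≤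
        (⌊(N₀ : ℝ) * U b⌋ - ⌊(N₀ : ℝ) * U a⌋).toNat := by
      refine Finset.card_image_le.trans ?_
      rw [Int.card_Ioc]
    have h2 : ⌊(N₀ : ℝ) * U a⌋ ≤ ⌊(N₀ : ℝ) * U b⌋ := Int.floor_le_floor (hmono a hmem_a b hmem_b hab)
    have h3 : (((⌊(N₀ : ℝ) * U b⌋ - ⌊(N₀ : ℝ) * U a⌋).toNat : ℕ) : ℝ) = (⌊(N₀ : ℝ) * U b⌋ : ℝ) - ⌊(N₀ : ℝ) * U a⌋ := by
      have h4 : (((⌊(N₀ : ℝ) * U b⌋ - ⌊(N₀ : ℝ) * U a⌋).toNat : ℕ) : ℤ) = ⌊(N₀ : ℝ) * U b⌋ - ⌊(N₀ : ℝ) * U a⌋ :=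
        Int.toNat_of_nonneg (by omega)
      have h5 : ((((⌊(N₀ : ℝ) * U b⌋ - ⌊(N₀ : ℝ) * U a⌋).toNat : ℕ) : ℤ) : ℝ) =
          ((⌊(N₀ : ℝ) * U b⌋ - ⌊(N₀ : ℝ) * U a⌋ : ℤ) : ℝ) := by rw [h4]
      push_cast at h5
      exact h5
    have h6 := Int.floor_le ((N₀ : ℝ) * U b)
    have h7 := Int.lt_floor_add_one ((N₀ : ℝ) * U a)
    calc (((Finset.Ioc ⌊(N₀ : ℝ) * U a⌋ ⌊(N₀ : ℝ) * U b⌋).image z).card : ℝ)
        ≤ (((⌊(N₀ : ℝ) * U b⌋ - ⌊(N₀ : ℝ) * U a⌋).toNat : ℕ) : ℝ) := by exact_mod_cast h1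
      _ = (⌊(N₀ : ℝ) * U b⌋ : ℝ) - ⌊(N₀ : ℝ) * U a⌋ := h3
      _ ≤ N₀ * (U b - U a) + 1 := by rw [mul_sub]; linarith
  · intro x hx y hy hxy hS
    have h1 : ⌊(N₀ : ℝ) * U x⌋ ≤ ⌊(N₀ : ℝ) * U y⌋ := Int.floor_le_floor (hmono x hx y hy hxy)
    by_contra hne
    have hlt : ⌊(N₀ : ℝ) * U x⌋ < ⌊(N₀ : ℝ) * U y⌋ := lt_of_le_of_ne h1 hne
    set k := ⌊(N₀ : ℝ) * U y⌋ with hk
    have hky : (k : ℝ) ≤ N₀ * U y := Int.floor_le _
    have hkb : (k : ℝ) ≤ N₀ * U b := hky.trans (hmono y hy b hmem_b hy.2)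
    have hxk : (N₀ : ℝ) * U x < k := Int.floor_lt.1 hlt
    have hl := hz k hkb
    have hzy : z k ≤ y := hl.2 ⟨hy, hky⟩
    have hxz : x < z k := by
      by_contra hcon
      push Not at hcon
      have h2 : (k : ℝ) ≤ N₀ * U (z k) := hl.1.2
      have h3 := hmono (z k) hl.1.1 x hx hcon
      linarith
    refine hS (z k) (Finset.mem_image.2 ⟨k, ?_, rfl⟩) ⟨hxz, hzy⟩
    rw [Finset.mem_Ioc]
    refine ⟨?_, Int.floor_le_floor (hmono y hy b hmem_b hy.2)⟩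
    exact lt_of_le_of_lt (Int.floor_le_floor (hmono a hmem_a x hx hx.1)) hlt

open Classical in
/-- children with a break point -/
theorem few6 {f : ℝ → ℝ} {a ℓ : ℝ} (hℓ : 0 < ℓ) (S : Finset ℝ)
    (hf : ∀ x ∈ Icc a (a + ℓ), ∀ y ∈ Icc a (a + ℓ), x ≤ y → (∀ z ∈ S, z ∉ Ioc x y) → f x = f y) {B : ℕ} (hB : 1 ≤ B) :
    (((Finset.range B).filter fun b : ℕ => ¬ ∃ v : ℝ, ∀ x ∈ Ioo (a + b * (ℓ / B)) (a + (b + 1) * (ℓ / B)), f x = v).card : ℝ) ≤ S.card := by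
  have hB0 : (0 : ℝ) < B := by exact_mod_cast hB
  have hq : 0 < ℓ / B := by positivity
  have key : ∀ b ∈ (Finset.range B).filter fun b : ℕ => ¬ ∃ v : ℝ, ∀ x ∈ Ioo (a + b * (ℓ / B)) (a + (b + 1) * (ℓ / B)), f x = v,
      ∃ z ∈ S, z ∈ Ioo (a + b * (ℓ / B)) (a + (b + 1) * (ℓ / B)) := by
    intro b hb
    rw [Finset.mem_filter, Finset.mem_range] at hb
    by_contra hcon
    push Not at hcon
    apply hb.2
    refine ⟨f (a + b * (ℓ / B) + ℓ / B / 2), ?_⟩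
    have hb1 : (b : ℝ) + 1 ≤ B := by exact_mod_cast hb.1
    have hend : a + ((b : ℝ) + 1) * (ℓ / B) ≤ a + ℓ := by
      have h1 : ((b : ℝ) + 1) * (ℓ / B) ≤ B * (ℓ / B) := mul_le_mul_of_nonneg_right hb1 hq.le
      have h2 : (B : ℝ) * (ℓ / B) = ℓ := mul_div_cancel₀ ℓ hB0.ne'
      linarith
    have hsta : a ≤ a + b * (ℓ / B) := by
      have : 0 ≤ (b : ℝ) * (ℓ / B) := by positivity
      linarith
    have h3 : ∀ x ∈ Ioo (a + b * (ℓ / B)) (a + (b + 1) * (ℓ / B)), ∀ y ∈ Ioo (a + b * (ℓ / B)) (a + (b + 1) * (ℓ / B)),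
        x ≤ y → f x = f y := by
      intro x hx y hy hxy
      refine hf x ⟨by linarith [hx.1], by linarith [hx.2]⟩ y ⟨by linarith [hy.1], by linarith [hy.2]⟩ hxy ?_
      intro z hz hzxy
      exact hcon z hz ⟨by linarith [hx.1, hzxy.1], by linarith [hy.2, hzxy.2]⟩
    have hmid : a + b * (ℓ / B) + ℓ / B / 2 ∈ Ioo (a + b * (ℓ / B)) (a + (b + 1) * (ℓ / B)) := by
      have h4 : ((b : ℝ) + 1) * (ℓ / B) = b * (ℓ / B) + ℓ / B := by ring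
      rw [h4]
      exact ⟨by linarith, by linarith⟩
    intro x hx
    rcases le_total x (a + b * (ℓ / B) + ℓ / B / 2) with h | h
    · exact h3 x hx _ hmid h
    · exact (h3 _ hmid x hx h).symm
  choose! z hz1 hz2 using key
  have hcard : ((Finset.range B).filter fun b : ℕ => ¬ ∃ v : ℝ, ∀ x ∈ Ioo (a + b * (ℓ / B)) (a + (b + 1) * (ℓ / B)), f x = v).card ≤ S.card := by
    apply Finset.card_le_card_of_injOn z
    · intro b hb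
      exact hz1 b hb
    · have aux : ∀ b c : ℕ, b < c → z b ∈ Ioo (a + b * (ℓ / B)) (a + (b + 1) * (ℓ / B)) →
          z c ∈ Ioo (a + c * (ℓ / B)) (a + (c + 1) * (ℓ / B)) → z b ≠ z c := by
        intro b c hbc h1 h2 h3
        have h4 : ((b : ℝ) + 1) * (ℓ / B) ≤ c * (ℓ / B) := mul_le_mul_of_nonneg_right (by exact_mod_cast hbc) hq.le
        have := h1.2
        have := h2.1
        linarith
      intro b hb c hc h
      by_contra hne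
      rcases lt_or_gt_of_ne hne with h1 | h1
      · exact aux b c h1 (hz2 b hb) (hz2 c hc) h
      · exact aux c b h1 (hz2 c hc) (hz2 b hb) h.symm
  exact_mod_cast hcard

end Pool.Agent.Helper85.LD6
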